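import Mathlib

set_option autoImplicit false

namespace Pool.Agent.H9038fc

open Equiv


/-! ## Bit-sliced computation -/

/-- forcing evaluation of a natural number -/
def force {α : Type} (n : ℕ) (f : ℕ → α) : α := Nat.rec (motive := fun _ => α) (f 0) (fun k _ => f (k + 1)) n

theorem force_eq {α : Type} (n : ℕ) (f : ℕ → α) : force n f = f n := by
  cases n <;> rfl

/-- all ones on `2 ^ n` bits -/
def full (n : ℕ) : ℕ := 2 ^ (2 ^ n) - 1

/-- the mask of variable `k` among `n` variables -/
def X (n k : ℕ) : ℕ :=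
  Nat.rec (motive := fun _ => ℕ) 0
    (fun m x => if k = m then 2 ^ (2 ^ m) * full m + 0 else 2 ^ (2 ^ m) * x + x) n

theorem X_zero (k : ℕ) : X 0 k = 0 := rfl
theorem X_succ (n k : ℕ) : X (n + 1) k =
    if k = n then 2 ^ (2 ^ n) * full n + 0 else 2 ^ (2 ^ n) * X n k + X n k := rfl

theorem full_lt (n : ℕ) : full n < 2 ^ (2 ^ n) := by
  unfold full
  have : 0 < 2 ^ (2 ^ n) := by positivity
  omega

theorem X_lt (n k : ℕ) : X n k < 2 ^ (2 ^ n) := by
  induction n with
  | zero => rw [X_zero]; positivity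
  | succ n ih =>
    rw [X_succ]
    have e : 2 ^ (2 ^ (n + 1)) = 2 ^ (2 ^ n) * 2 ^ (2 ^ n) := by
      rw [← pow_add]; congr 1; ring
    have hf := full_lt n
    rw [e]
    split_ifs
    · nlinarith
    · nlinarith

theorem testBit_full (n i : ℕ) (hi : i < 2 ^ n) : (full n).testBit i = true := by
  unfold full
  rw [Nat.testBit_two_pow_sub_one]
  simpa using hi

theorem testBit_X (n k : ℕ) (hk : k < n) (i : ℕ) (hi : i < 2 ^ n) :
    (X n k).testBit i = i.testBit k := by
  induction n generalizing i with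
  | zero => omega
  | succ n ih =>
    rw [X_succ]
    by_cases h : k = n
    · rw [if_pos h, Nat.testBit_two_pow_mul_add _ (by positivity), ]
      by_cases h2 : i < 2 ^ n
      · rw [if_pos h2, h, Nat.testBit_lt_two_pow h2]; simp
      · rw [if_neg h2, testBit_full n _ (by rw [pow_succ] at hi; omega), h]
        obtain ⟨r, rfl⟩ : ∃ r, i = 2 ^ n + r := ⟨i - 2 ^ n, by omega⟩
        rw [Nat.testBit_two_pow_add_eq, Nat.testBit_lt_two_pow (by rw [pow_succ] at hi; omega)]
        rfl
    · rw [if_neg h, Nat.testBit_two_pow_mul_add _ (X_lt n k)]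
      by_cases h2 : i < 2 ^ n
      · rw [if_pos h2, ih (by omega) i h2]
      · rw [if_neg h2, ih (by omega) _ (by rw [pow_succ] at hi; omega)]
        obtain ⟨r, rfl⟩ : ∃ r, i = 2 ^ n + r := ⟨i - 2 ^ n, by omega⟩
        rw [Nat.testBit_two_pow_add_gt (by omega : k < n), Nat.add_sub_cancel_left]

/-- carry-save addition of a mask into a list of bit planes -/
def addc (m : ℕ) (cs : List ℕ) : List ℕ :=
  match cs with
  | [] => if m = 0 then [] else [m]
  | c :: t => (c ^^^ m) :: addc (c &&& m) t

/-- value of the planes at index `i` -/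
def val (i : ℕ) (cs : List ℕ) : ℕ :=
  match cs with
  | [] => 0
  | c :: t => (c.testBit i).toNat + 2 * val i t

theorem val_addc (i m : ℕ) (cs : List ℕ) : val i (addc m cs) = val i cs + (m.testBit i).toNat := by
  induction cs generalizing m with
  | nil =>
    unfold addc
    split_ifs with h
    · rw [h]; simp [val]
    · simp [val]
  | cons c t ih =>
    unfold addc
    simp only [val]
    rw [ih, Nat.testBit_xor, Nat.testBit_and]
    cases c.testBit i <;> cases m.testBit i <;> simp <;> omega

/-- continuation-passing version -/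
def addK {α : Type} (cs : List ℕ) : ℕ → (List ℕ → α) → α :=
  match cs with
  | [] => fun m k => if m = 0 then k [] else k [m]
  | c :: t => fun m k => force (c ^^^ m) fun x => force (c &&& m) fun y =>
      addK t y fun t' => k (x :: t')

theorem addK_eq {α : Type} (cs : List ℕ) (m : ℕ) (k : List ℕ → α) :
    addK cs m k = k (addc m cs) := by
  induction cs generalizing m k with
  | nil =>
    unfold addK addc
    split_ifs <;> rfl
  | cons c t ih =>
    unfold addK addc
    rw [force_eq, force_eq, ih]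

/-- mask of a closed walk `a → l → 0`. -/
def pathM (M : ℕ → ℕ → ℕ) (a : ℕ) (l : List ℕ) : ℕ :=
  match l with
  | [] => M a 0
  | b :: t => M a b &&& pathM M b t

def pathB (R : ℕ → ℕ → Bool) (a : ℕ) (l : List ℕ) : Bool :=
  match l with
  | [] => R a 0
  | b :: t => R a b && pathB R b t

theorem testBit_pathM (M : ℕ → ℕ → ℕ) (i a : ℕ) (l : List ℕ) :
    (pathM M a l).testBit i = pathB (fun x y => (M x y).testBit i) a l := by
  induction l generalizing a with
  | nil => rfl
  | cons b t ih => unfold pathM pathB; rw [Nat.testBit_and, ih]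

/-- total planes -/
def total (M : ℕ → ℕ → ℕ) (L : List (List ℕ)) (cs : List ℕ) : List ℕ :=
  match L with
  | [] => cs
  | l :: L => total M L (addc (pathM M 0 l) cs)

theorem val_total (M : ℕ → ℕ → ℕ) (i : ℕ) (L : List (List ℕ)) (cs : List ℕ) :
    val i (total M L cs) = val i cs + L.countP (pathB (fun x y => (M x y).testBit i) 0) := by
  induction L generalizing cs with
  | nil => simp [total]
  | cons l L ih =>
    unfold total
    rw [ih, val_addc, testBit_pathM, List.countP_cons]
    cases pathB (fun x y => (M x y).testBit i) 0 l <;> simp <;> omega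

def totalK {α : Type} (M : ℕ → ℕ → ℕ) (L : List (List ℕ)) : List ℕ → (List ℕ → α) → α :=
  match L with
  | [] => fun cs k => k cs
  | l :: L => fun cs k => force (pathM M 0 l) fun m => addK cs m fun cs' => totalK M L cs' k

theorem totalK_eq {α : Type} (M : ℕ → ℕ → ℕ) (L : List (List ℕ)) (cs : List ℕ)
    (k : List ℕ → α) : totalK M L cs k = k (total M L cs) := by
  induction L generalizing cs with
  | nil => rfl
  | cons l L ih =>
    unfold totalK total
    rw [force_eq, addK_eq, ih]

/-- indicator mask of value `h` -/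
def eqMask (F : ℕ) (cs : List ℕ) : ℕ → ℕ :=
  match cs with
  | [] => fun h => if h = 0 then F else 0
  | c :: t => fun h => (if h % 2 = 1 then c else F ^^^ c) &&& eqMask F t (h / 2)

theorem testBit_eqMask (F : ℕ) (i : ℕ) (hF : F.testBit i = true) (cs : List ℕ) (h : ℕ)
    (hv : val i cs = h) : (eqMask F cs h).testBit i = true := by
  induction cs generalizing h with
  | nil =>
    unfold val at hv
    unfold eqMask
    rw [← hv, if_pos rfl, hF]
  | cons c t ih =>
    unfold val at hv
    unfold eqMask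
    rw [Nat.testBit_and, ih (h / 2) (by cases hc : c.testBit i <;> simp [hc] at hv <;> omega)]
    split_ifs with h2
    · cases hc : c.testBit i
      · simp [hc] at hv; omega
      · rfl
    · rw [Nat.testBit_xor, hF]
      cases hc : c.testBit i
      · rfl
      · simp [hc] at hv; omega

theorem val_lt (i : ℕ) (cs : List ℕ) : val i cs < 2 ^ cs.length := by
  induction cs with
  | nil => simp [val]
  | cons c t ih =>
    unfold val
    rw [List.length_cons, pow_succ]
    cases c.testBit i <;> simp <;> omega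

/-- the arc masks -/
def MT (F : ℕ) : ℕ → ℕ → ℕ := fun a b =>
  (([[0, F, X 14 0, X 14 1, X 14 2, X 14 3, 0],
    [0, 0, F, X 14 4, X 14 5, X 14 6, X 14 7],
    [F ^^^ X 14 0, 0, 0, F, X 14 8, X 14 9, X 14 10],
    [F ^^^ X 14 1, F ^^^ X 14 4, 0, 0, F, X 14 11, X 14 12],
    [F ^^^ X 14 2, F ^^^ X 14 5, F ^^^ X 14 8, 0, 0, F, X 14 13],
    [F ^^^ X 14 3, F ^^^ X 14 6, F ^^^ X 14 9, F ^^^ X 14 11, 0, 0, F],
    [F, F ^^^ X 14 7, F ^^^ X 14 10, F ^^^ X 14 12, F ^^^ X 14 13, 0, 0]] :
      List (List ℕ)).getD a []).getD b 0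

/-- orders of the remaining six vertices -/
def L6 : List (List ℕ) := [1, 2, 3, 4, 5, 6].permutations'

def hs : List ℕ := [16, 18, 19, 20, 21, 22, 23, 25, 26, 27, 28, 29, 30, 31]

def check : Bool :=
  totalK (MT (full 14)) L6 [] fun cs =>
    Nat.ble cs.length 5 && hs.all (fun h => Nat.beq (eqMask (full 14) cs h) 0)



theorem check_true : check = true := by decide +kernel




def idx6 : List (Fin 7) := [1, 2, 3, 4, 5, 6]

def phi (v : Perm (Fin 7)) : List ℕ := idx6.map (fun i => (v i).val)

theorem mem_idx6 (i : Fin 7) : i ∈ idx6 ↔ i ≠ 0 := by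
  revert i; unfold idx6; decide

noncomputable def Rb (T : Fin 7 → Fin 7 → Prop) (a b : ℕ) : Bool :=
  open Classical in decide (T (Fin.ofNat 7 a) (Fin.ofNat 7 b))

theorem ofNat_val (x : Fin 7) : Fin.ofNat 7 x.val = x := by revert x; decide

theorem pathB_phi (T : Fin 7 → Fin 7 → Prop) (v : Perm (Fin 7)) (hv : v 0 = 0) :
    pathB (Rb T) 0 (phi v) = true ↔ ∀ i : Fin 7, T (v i) (v (i + 1)) := by
  classical
  have h0 : Fin.ofNat 7 0 = (0 : Fin 7) := rfl
  have hforall : (∀ i : Fin 7, T (v i) (v (i + 1))) ↔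
      T (v 0) (v 1) ∧ T (v 1) (v 2) ∧ T (v 2) (v 3) ∧ T (v 3) (v 4) ∧ T (v 4) (v 5) ∧
        T (v 5) (v 6) ∧ T (v 6) (v 0) := by
    constructor
    · intro h
      exact ⟨h 0, h 1, h 2, h 3, h 4, h 5, h 6⟩
    · rintro ⟨h0, h1, h2, h3, h4, h5, h6⟩ i
      fin_cases i
      · exact h0
      · exact h1
      · exact h2
      · exact h3
      · exact h4
      · exact h5
      · exact h6
  rw [hforall, hv]
  unfold phi idx6
  simp only [List.map_cons, List.map_nil, pathB, Rb, ofNat_val, h0, Bool.and_eq_true,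
    decide_eq_true_eq]

theorem phi_perm (v : Perm (Fin 7)) (hv : v 0 = 0) : (phi v).Perm [1, 2, 3, 4, 5, 6] := by
  refine (List.perm_ext_iff_of_nodup ?_ (by decide)).mpr ?_
  · unfold phi
    refine List.Nodup.map ?_ (by unfold idx6; decide)
    intro a b h
    exact v.injective (Fin.ext h)
  · intro x
    unfold phi
    rw [List.mem_map]
    constructor
    · rintro ⟨i, hi, rfl⟩
      rw [mem_idx6] at hi
      have h1 : v i ≠ 0 := fun h => hi (v.injective (h.trans hv.symm))
      generalize v i = y at h1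
      revert h1
      revert y
      decide
    · intro hx
      have hx7 : x < 7 := by
        simp only [List.mem_cons, List.not_mem_nil, or_false] at hx
        omega
      refine ⟨v.symm ⟨x, hx7⟩, ?_, by simp⟩
      rw [mem_idx6]
      intro h
      have h2 : (⟨x, hx7⟩ : Fin 7) = 0 := by
        have := congrArg v h
        rwa [Equiv.apply_symm_apply, hv] at this
      have h3 : x = 0 := congrArg Fin.val h2
      subst h3
      revert hx
      decide

theorem L6_nodup : L6.Nodup := by
  unfold L6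
  exact (List.permutations_perm_permutations' _).nodup_iff.mp
    (List.nodup_permutations _ (by decide))

theorem countP_card (L : List (List ℕ)) (hL : L.Nodup) (p : List ℕ → Bool) :
    L.countP p = (L.toFinset.filter (fun l => p l = true)).card := by
  rw [List.countP_eq_length_filter]
  rw [← List.toFinset_card_of_nodup (hL.filter _)]
  congr 1
  ext l
  simp

theorem card_eq (T : Fin 7 → Fin 7 → Prop) :
    {v : Perm (Fin 7) | v 0 = 0 ∧ ∀ i, T (v i) (v (i + 1))}.ncard
      = L6.countP (pathB (Rb T) 0) := by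
  classical
  rw [countP_card L6 L6_nodup]
  have h2 : {v : Perm (Fin 7) | v 0 = 0 ∧ ∀ i, T (v i) (v (i + 1))} =
      ((Finset.univ.filter (fun v : Perm (Fin 7) => v 0 = 0 ∧ ∀ i, T (v i) (v (i + 1))) :
        Finset (Perm (Fin 7))) : Set (Perm (Fin 7))) := by
    ext v
    simp
  rw [h2, Set.ncard_coe_finset]
  refine Finset.card_bij (fun σ _ => phi σ) ?_ ?_ ?_
  · intro σ hσ
    rw [Finset.mem_filter] at hσ ⊢
    obtain ⟨_, h0, hc⟩ := hσ
    refine ⟨?_, (pathB_phi T σ h0).mpr hc⟩
    rw [List.mem_toFinset]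
    unfold L6
    rw [List.mem_permutations']
    exact phi_perm σ h0
  · intro σ hσ τ hτ h
    rw [Finset.mem_filter] at hσ hτ
    ext x
    by_cases hx : x = 0
    · rw [hx, hσ.2.1, hτ.2.1]
    · have h2 := List.map_inj_left.mp h x ((mem_idx6 x).mpr hx)
      exact h2
  · intro l hl
    rw [Finset.mem_filter, List.mem_toFinset] at hl
    obtain ⟨hl1, hl2⟩ := hl
    unfold L6 at hl1
    rw [List.mem_permutations'] at hl1
    have hlen : l.length = 6 := by rw [hl1.length_eq]; rfl
    have hnd : l.Nodup := hl1.nodup_iff.mpr (by decide)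
    have hmem : ∀ x ∈ l, x < 7 ∧ x ≠ 0 := by
      intro x hx
      have := (hl1.mem_iff (a := x)).mp hx
      simp only [List.mem_cons, List.not_mem_nil, or_false] at this
      omega
    have hlt : ∀ i : Fin 7, (0 :: l).getD i.val 0 < 7 := by
      intro i
      by_cases h : i.val < (0 :: l).length
      · rw [List.getD_eq_getElem _ _ h]
        have h3 : (0 :: l)[i.val] ∈ (0 :: l) := List.getElem_mem h
        rcases List.mem_cons.mp h3 with h4 | h4
        · rw [h4]; norm_num
        · exact (hmem _ h4).1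
      · rw [List.getD_eq_default _ _ (by omega)]; norm_num
    have hnd' : (0 :: l).Nodup := by
      rw [List.nodup_cons]
      exact ⟨fun h => (hmem 0 h).2 rfl, hnd⟩
    have hinj : Function.Injective (fun i : Fin 7 => (⟨(0 :: l).getD i.val 0, hlt i⟩ : Fin 7)) := by
      intro a b hab
      have hab' : (0 :: l).getD a.val 0 = (0 :: l).getD b.val 0 := congrArg Fin.val hab
      have hla : a.val < (0 :: l).length := by rw [List.length_cons, hlen]; exact a.2
      have hlb : b.val < (0 :: l).length := by rw [List.length_cons, hlen]; exact b.2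
      rw [List.getD_eq_getElem _ _ hla, List.getD_eq_getElem _ _ hlb] at hab'
      exact Fin.ext ((List.Nodup.getElem_inj_iff hnd').mp hab')
    let σ : Equiv.Perm (Fin 7) := Equiv.ofBijective _ (Finite.injective_iff_bijective.mp hinj)
    have hσ0 : σ 0 = 0 := rfl
    have hmap : phi σ = l := by
      apply List.ext_getElem
      · simp [phi, idx6, hlen]
      · intro k hk1 hk2
        have hk : k < 6 := by rw [← hlen]; exact hk2
        have hidx : (idx6[k]'(by unfold idx6; simpa using hk)).val = k + 1 := by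
          unfold idx6
          rcases k with _ | _ | _ | _ | _ | _ | k
          · rfl
          · rfl
          · rfl
          · rfl
          · rfl
          · rfl
          · omega
        simp only [phi, List.getElem_map]
        show (0 :: l).getD (idx6[k]'(by unfold idx6; simpa using hk)).val 0 = l[k]
        rw [hidx, List.getD_cons_succ, List.getD_eq_getElem _ _ hk2]
    refine ⟨σ, ?_, hmap⟩
    rw [Finset.mem_filter]
    refine ⟨Finset.mem_univ _, hσ0, ?_⟩
    rw [← pathB_phi T σ hσ0, hmap]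
    exact hl2




def srcs : List ℕ := [0, 0, 0, 0, 1, 1, 1, 1, 2, 2, 2, 3, 3, 4]
def dsts : List ℕ := [2, 3, 4, 5, 3, 4, 5, 6, 4, 5, 6, 5, 6, 6]

noncomputable def code (T : Fin 7 → Fin 7 → Prop) : ℕ :=
  Nat.ofBits (fun k : Fin 14 => Rb T (srcs.getD k.val 0) (dsts.getD k.val 0))

theorem code_lt (T : Fin 7 → Fin 7 → Prop) : code T < 2 ^ 14 := Nat.ofBits_lt_two_pow _

theorem code_bit (T : Fin 7 → Fin 7 → Prop) (k : ℕ) (hk : k < 14) :
    (X 14 k).testBit (code T) = Rb T (srcs.getD k 0) (dsts.getD k 0) := by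
  rw [testBit_X 14 k hk _ (code_lt T)]
  unfold code
  rw [Nat.testBit_ofBits_lt _ _ hk]

theorem table (T : Fin 7 → Fin 7 → Prop) (hirr : ∀ u, ¬ T u u)
    (hx : ∀ u v, u ≠ v → Xor (T u v) (T v u)) (hc : ∀ i, T i (i + 1)) (a b : ℕ)
    (ha : a < 7) (hb : b < 7) : (MT (full 14) a b).testBit (code T) = Rb T a b := by
  classical
  have hF : (full 14).testBit (code T) = true := testBit_full 14 _ (code_lt T)
  have h0 := code_bit T 0 (by norm_num)
  have h1 := code_bit T 1 (by norm_num)
  have h2 := code_bit T 2 (by norm_num)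
  have h3 := code_bit T 3 (by norm_num)
  have h4 := code_bit T 4 (by norm_num)
  have h5 := code_bit T 5 (by norm_num)
  have h6 := code_bit T 6 (by norm_num)
  have h7 := code_bit T 7 (by norm_num)
  have h8 := code_bit T 8 (by norm_num)
  have h9 := code_bit T 9 (by norm_num)
  have h10 := code_bit T 10 (by norm_num)
  have h11 := code_bit T 11 (by norm_num)
  have h12 := code_bit T 12 (by norm_num)
  have h13 := code_bit T 13 (by norm_num)
  have hdiag : ∀ a, Rb T a a = false := by
    intro a
    unfold Rb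
    simp [hirr]
  have hflip : ∀ a b, Fin.ofNat 7 a ≠ Fin.ofNat 7 b → Rb T b a = !(Rb T a b) := by
    intro a b hab
    have := hx _ _ hab
    unfold Rb
    rcases this with ⟨h1, h2⟩ | ⟨h1, h2⟩
    · rw [decide_eq_true h1, decide_eq_false h2]; rfl
    · rw [decide_eq_true h1, decide_eq_false h2]; rfl
  have hcyc : ∀ a b, Fin.ofNat 7 b = Fin.ofNat 7 a + 1 → Rb T a b = true := by
    intro a b hab
    unfold Rb
    rw [hab]
    simp [hc]
  have hcyc' : ∀ a b, Fin.ofNat 7 b = Fin.ofNat 7 a + 1 → Fin.ofNat 7 a ≠ Fin.ofNat 7 b →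
      Rb T b a = false := by
    intro a b hab hne
    rw [hflip a b hne, hcyc a b hab]; rfl
  simp only [srcs, dsts, List.getD_cons_zero, List.getD_cons_succ] at h0 h1 h2 h3 h4 h5 h6 h7 h8 h9 h10 h11 h12 h13
  interval_cases a <;> interval_cases b <;>
    simp only [MT, List.getD_cons_zero, List.getD_cons_succ, Nat.zero_testBit, Nat.testBit_xor,
      h0, h1, h2, h3, h4, h5, h6, h7, h8, h9, h10, h11, h12, h13, hF, Bool.true_xor]
  all_goals first
    | rfl
    | exact (hdiag _).symm
    | exact (hcyc _ _ (by decide)).symm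
    | exact (hcyc' _ _ (by decide) (by decide)).symm
    | exact (hflip _ _ (by decide)).symm

/-- number of Hamiltonian circuits, via normalized cyclic orders -/
noncomputable def N (T : Fin 7 → Fin 7 → Prop) : ℕ :=
  {v : Perm (Fin 7) | v 0 = 0 ∧ ∀ i, T (v i) (v (i + 1))}.ncard

theorem pathB_congr (R S : ℕ → ℕ → Bool) (h : ∀ a b, a < 7 → b < 7 → R a b = S a b) (a : ℕ)
    (ha : a < 7) (l : List ℕ) (hl : ∀ x ∈ l, x < 7) : pathB R a l = pathB S a l := by
  induction l generalizing a with
  | nil => exact h a 0 ha (by norm_num)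
  | cons b t ih =>
    unfold pathB
    rw [h a b ha (hl b (by simp)), ih b (hl b (by simp)) (fun x hx => hl x (by simp [hx]))]

theorem L6_lt (l : List ℕ) (hl : l ∈ L6) : ∀ x ∈ l, x < 7 := by
  intro x hx
  unfold L6 at hl
  rw [List.mem_permutations'] at hl
  have := (hl.mem_iff (a := x)).mp hx
  simp only [List.mem_cons, List.not_mem_nil, or_false] at this
  omega

theorem N_val (T : Fin 7 → Fin 7 → Prop) (hirr : ∀ u, ¬ T u u)
    (hx : ∀ u v, u ≠ v → Xor (T u v) (T v u)) (hc : ∀ i, T i (i + 1)) :
    val (code T) (total (MT (full 14)) L6 []) = N T := by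
  rw [val_total]
  unfold N
  rw [card_eq]
  show 0 + _ = _
  rw [zero_add]
  apply List.countP_congr
  intro l hl
  rw [pathB_congr _ (Rb T) (fun a b ha hb => table T hirr hx hc a b ha hb) 0 (by norm_num) l
    (L6_lt l hl)]

theorem norm_values (T : Fin 7 → Fin 7 → Prop) (hirr : ∀ u, ¬ T u u)
    (hx : ∀ u v, u ≠ v → Xor (T u v) (T v u)) (hc : ∀ i, T i (i + 1)) :
    N T < 32 ∧ N T ∉ hs := by
  have hch := check_true
  unfold check at hch
  rw [totalK_eq, Bool.and_eq_true, List.all_eq_true] at hch
  obtain ⟨hlen, hall⟩ := hch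
  have hlen' := Nat.le_of_ble_eq_true hlen
  have hv := N_val T hirr hx hc
  have hF : (full 14).testBit (code T) = true := testBit_full 14 _ (code_lt T)
  constructor
  · rw [← hv]
    refine lt_of_lt_of_le (val_lt _ _) ?_
    calc 2 ^ _ ≤ 2 ^ 5 := Nat.pow_le_pow_right (by norm_num) hlen'
      _ = 32 := by norm_num
  · intro hmem
    have h1 := hall _ hmem
    have h2 := Nat.eq_of_beq_eq_true h1
    have h3 := testBit_eqMask (full 14) (code T) hF (total (MT (full 14)) L6 []) (N T) hv
    rw [h2] at h3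
    simp at h3

/-- transport to a tournament containing the standard circuit -/
theorem N_transport (T : Fin 7 → Fin 7 → Prop) (v : Perm (Fin 7)) (hv : v 0 = 0) :
    N (fun i j => T (v i) (v j)) = N T := by
  unfold N
  have : {w : Perm (Fin 7) | w 0 = 0 ∧ ∀ i, T (w i) (w (i + 1))} =
      (fun w : Perm (Fin 7) => v * w) ''
        {w : Perm (Fin 7) | w 0 = 0 ∧ ∀ i, T (v (w i)) (v (w (i + 1)))} := by
    ext w
    simp only [Set.mem_image, Set.mem_ofPred_eq]
    constructor
    · rintro ⟨h0, h1⟩
      refine ⟨v⁻¹ * w, ⟨?_, ?_⟩, by group⟩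
      · rw [Perm.mul_apply, h0]
        rw [Perm.inv_eq_iff_eq, hv]
      · intro i
        simpa using h1 i
    · rintro ⟨u, ⟨h0, h1⟩, rfl⟩
      refine ⟨by rw [Perm.mul_apply, h0, hv], fun i => h1 i⟩
  rw [this, Set.ncard_image_of_injective _ (mul_right_injective v)]

theorem values (T : Fin 7 → Fin 7 → Prop) (hirr : ∀ u, ¬ T u u)
    (hx : ∀ u v, u ≠ v → Xor (T u v) (T v u)) : N T < 32 ∧ N T ∉ hs := by
  by_cases hne : ∃ v : Perm (Fin 7), v 0 = 0 ∧ ∀ i, T (v i) (v (i + 1))
  · obtain ⟨v, h0, h1⟩ := hne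
    rw [← N_transport T v h0]
    exact norm_values _ (fun u => hirr _) (fun a b hab => hx _ _ (fun h => hab (v.injective h))) h1
  · have : N T = 0 := by
      unfold N
      rw [Set.ncard_eq_zero]
      ext v
      simp only [Set.mem_ofPred_eq, Set.mem_empty_iff_false, iff_false]
      exact fun h => hne ⟨v, h⟩
    rw [this]
    exact ⟨by norm_num, by unfold hs; decide⟩

/-- the quadratic residue tournament -/
def QR (i j : Fin 7) : Prop := j - i = 1 ∨ j - i = 2 ∨ j - i = 4

instance (i j : Fin 7) : Decidable (QR i j) := by unfold QR; infer_instance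

def QRb (a b : ℕ) : Bool :=
  Nat.beq ((b + 7 - a) % 7) 1 || Nat.beq ((b + 7 - a) % 7) 2 || Nat.beq ((b + 7 - a) % 7) 4

theorem QR_count : L6.countP (pathB QRb 0) = 24 := by decide +kernel

theorem QRb_eq : ∀ a b : Fin 7, QRb a.val b.val = decide (QR a b) := by decide +kernel

theorem N_QR : N QR = 24 := by
  unfold N
  rw [card_eq, ← QR_count]
  apply List.countP_congr
  intro l hl
  rw [pathB_congr _ QRb ?_ 0 (by norm_num) l (L6_lt l hl)]
  intro a b ha hb
  have h := QRb_eq ⟨a, ha⟩ ⟨b, hb⟩
  have ea : Fin.ofNat 7 a = ⟨a, ha⟩ := Fin.ext (Nat.mod_eq_of_lt ha)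
  have eb : Fin.ofNat 7 b = ⟨b, hb⟩ := Fin.ext (Nat.mod_eq_of_lt hb)
  unfold Rb
  rw [ea, eb]
  rw [h]
  congr

theorem QR_irr : ∀ u, ¬ QR u u := by decide
theorem QR_xor : ∀ u v : Fin 7, u ≠ v → Xor (QR u v) (QR v u) := by decide

end Pool.Agent.H9038fc
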